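import Pool.Agent.Helper66.SSW.Core

/-!
# Sands-Sauer-Woodrow with three colours leaving only vertices entered by one colour: minimal counterexamples

`Chain m E z`: the vertices `0, ..., m` are ordered so that `i + 1` does not reach `i`, there is an arc `m → 0` of colour
`z`, and `0` reaches `m` at most in colour `z`. `no_chain`: impossible in a tournament without rainbow directed triangle
in which every vertex with arcs of all three colours leaving it has arcs of at most one colour entering it. `main`: so
there is a vertex reaching all others. `main_in`: the same with leaving and entering exchanged, since the reversed chain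
is a chain of the reversed tournament.
-/

set_option autoImplicit false

namespace Pool.Agent.Helper66.SSW

open Relation

/-- coloured tournaments without rainbow directed triangle in which every vertex with arcs of all three colours leaving it
has arcs of at most one colour entering it -/
structure Good {V : Type*} (E : Fin 3 → V → V → Prop) : Prop where
  tot : ∀ u v, u ≠ v → (∃ k, E k u v) ∨ ∃ k, E k v u
  asym : ∀ k l u v, E k u v → ¬ E l v u
  uniq : ∀ k l u v, E k u v → E l u v → k = l
  norb : ∀ k l e u v w, k ≠ l → l ≠ e → k ≠ e → E k u v → E l v w → E e w u → False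
  out2 : ∀ v, (∃ t, ∀ w, ¬ E t v w) ∨ ∀ k l u w, E k u v → E l w v → k = l

theorem Good.comap {V W : Type*} {E : Fin 3 → V → V → Prop} (h : Good E) (f : W → V) (hf : Function.Injective f) :
    Good (fun c a b => E c (f a) (f b)) where
  tot u v huv := h.tot _ _ (fun h2 => huv (hf h2))
  asym k l u v := h.asym k l _ _
  uniq k l u v := h.uniq k l _ _
  norb k l e u v w h1 h2 h3 := h.norb k l e _ _ _ h1 h2 h3
  out2 v := by
    rcases h.out2 (f v) with ⟨t, ht⟩ | h2
    · exact Or.inl ⟨t, fun w => ht (f w)⟩
    · exact Or.inr (fun k l u w => h2 k l (f u) (f w))

structure Chain (m : ℕ) (E : Fin 3 → Fin (m + 1) → Fin (m + 1) → Prop) (z : Fin 3) : Prop where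
  hole : ∀ i j : Fin (m + 1), (j : ℕ) = i + 1 → ∀ c, ¬ TransGen (E c) j i
  last : E z (Fin.last m) 0
  spec : ∀ c, TransGen (E c) 0 (Fin.last m) → c = z

theorem lift {V W : Type*} {E : Fin 3 → V → V → Prop} (f : W → V) {c : Fin 3} {a b : W}
    (h : TransGen (fun a b => E c (f a) (f b)) a b) : TransGen (E c) (f a) (f b) :=
  by
  refine TransGen.lift (p := E c) f ?_ _ _ h
  intro x y hxy
  exact hxy

theorem no_chain : ∀ (m : ℕ) (E : Fin 3 → Fin (m + 1) → Fin (m + 1) → Prop) (z : Fin 3), Good E → ¬ Chain m E z := by
  intro m
  induction m using Nat.strong_induction_on with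
  | _ m ih =>
    intro E z hG hC
    have hm : m ≠ 0 := by
      intro h
      subst h
      exact hG.asym _ _ _ _ hC.last hC.last
    -- intervals
    have hint : ∀ (u v : Fin (m + 1)) (s : Fin 3), u < v → ¬ (u = 0 ∧ v = Fin.last m) → E s v u →
        ∃ k, k ≠ s ∧ TransGen (E k) u v := by
      intro u v s huv hne hs
      by_contra hcon
      push Not at hcon
      have huv2 : (u : ℕ) < v := huv
      have hvm : (v : ℕ) ≤ m := Nat.lt_succ_iff.1 v.2
      have hlt : (v : ℕ) - u < m := by
        by_contra h
        apply hne
        constructor
        · apply Fin.ext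
          rw [Fin.val_zero]
          omega
        · apply Fin.ext
          rw [Fin.val_last]
          omega
      let f : Fin ((v : ℕ) - u + 1) → Fin (m + 1) := fun i => ⟨u + i, by omega⟩
      have hf : Function.Injective f := by
        intro a b hab
        have := congrArg Fin.val hab
        simp only [f] at this
        apply Fin.ext
        omega
      have hf0 : f 0 = u := by
        apply Fin.ext
        simp [f]
      have hfl : f (Fin.last _) = v := by
        apply Fin.ext
        simp only [f, Fin.val_last]
        omega
      refine ih _ hlt (fun c a b => E c (f a) (f b)) s (hG.comap f hf) ⟨?_, ?_, ?_⟩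
      · intro i j hij c hc
        exact hC.hole (f i) (f j) (by simp only [f]; omega) c (lift f hc)
      · rw [hf0, hfl]
        exact hs
      · intro c hc
        have := lift f hc
        rw [hf0, hfl] at this
        by_contra h2
        exact hcon c h2 this
    -- the sides
    have hsucc : ∀ v : Fin (m + 1), v ≠ Fin.last m → ((finRotate (m + 1) v : Fin (m + 1)) : ℕ) = v + 1 := by
      intro v hv
      exact coe_finRotate_of_ne_last hv
    have hlast : finRotate (m + 1) (Fin.last m) = 0 := finRotate_last
    have hne0 : ∀ v, finRotate (m + 1) v ≠ 0 ↔ v ≠ Fin.last m := by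
      intro v
      constructor
      · intro h1 h2
        rw [h2] at h1
        exact h1 hlast
      · intro h1 h2
        have := hsucc v h1
        rw [h2] at this
        simp at this
    have hsymm : (finRotate (m + 1)).symm 0 = Fin.last m := by
      rw [Equiv.symm_apply_eq]
      exact hlast.symm
    have hside : ∀ v, ∃ k, E k v (finRotate (m + 1) v) ∧ (v = Fin.last m → k = z) := by
      intro v
      by_cases hv : v = Fin.last m
      · refine ⟨z, ?_, fun _ => rfl⟩
        rw [hv, hlast]
        exact hC.last
      · have h1 := hsucc v hv
        have h2 : v ≠ finRotate (m + 1) v := by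
          intro h
          rw [← h] at h1
          omega
        rcases hG.tot _ _ h2 with ⟨k, hk⟩ | ⟨k, hk⟩
        · exact ⟨k, hk, fun h => absurd h hv⟩
        · exact absurd (TransGen.single hk) (hC.hole _ _ h1 k)
    choose c hc1 hc2 using hside
    have hcore : Core E (finRotate (m + 1)) Fin.val c 0 z :=
      { tot := hG.tot
        asym := hG.asym
        uniq := hG.uniq
        norb := hG.norb
        out2 := hG.out2
        side := hc1
        cz := by
          rw [hsymm]
          exact hc2 _ rfl
        hole := fun v hv k => hC.hole _ _ (hsucc v ((hne0 v).1 hv)) k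
        spec := by
          rw [hsymm]
          exact hC.spec
        full := by
          intro u v huv hus
          by_contra hcon
          push Not at hcon
          rcases lt_or_gt_of_ne huv with hlt | hgt
          · have hne : ¬ (u = 0 ∧ v = Fin.last m) := by
              rintro ⟨h1, h2⟩
              apply hus
              rw [h1, h2, hlast]
            rcases hG.tot u v huv with ⟨k, hk⟩ | ⟨k, hk⟩
            · exact hcon k (TransGen.single hk)
            · obtain ⟨l, -, hl⟩ := hint u v k hlt hne hk
              exact hcon l hl
          · have hgt2 : (v : ℕ) < u := hgt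
            have hum : (u : ℕ) ≤ m := Nat.lt_succ_iff.1 u.2
            have hvl : v ≠ Fin.last m := by
              intro h
              rw [h] at hgt2
              simp at hgt2
              omega
            have h1 := hsucc v hvl
            have h2 : (u : ℕ) ≠ v + 1 := by
              intro h
              exact hus (Fin.ext (h.trans h1.symm))
            have hlt : m - (u - v - 1) < m := by omega
            let f : Fin (m - (u - v - 1) + 1) → Fin (m + 1) := fun i =>
              if h : (i : ℕ) ≤ v then ⟨i, by omega⟩ else ⟨i + (u - v - 1), by omega⟩
            have hfv : ∀ i, (f i : ℕ) = if (i : ℕ) ≤ v then (i : ℕ) else i + (u - v - 1) := by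
              intro i
              simp only [f]
              split_ifs <;> rfl
            have hf : Function.Injective f := by
              intro a b hab
              have := congrArg Fin.val hab
              rw [hfv, hfv] at this
              apply Fin.ext
              split_ifs at this <;> omega
            have hf0 : f 0 = 0 := by
              apply Fin.ext
              rw [hfv]
              simp
            have hfl : f (Fin.last _) = Fin.last m := by
              apply Fin.ext
              rw [hfv]
              simp only [Fin.val_last]
              split_ifs <;> omega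
            refine ih _ hlt (fun c a b => E c (f a) (f b)) z (hG.comap f hf) ⟨?_, ?_, ?_⟩
            · intro i j hij c hc
              have h3 := lift f hc
              by_cases hiv : (i : ℕ) = v
              · have h4 : f i = v := by
                  apply Fin.ext
                  rw [hfv]
                  split_ifs <;> omega
                have h5 : f j = u := by
                  apply Fin.ext
                  rw [hfv]
                  split_ifs <;> omega
                rw [h4, h5] at h3
                exact hcon c h3
              · refine hC.hole (f i) (f j) ?_ c h3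
                rw [hfv, hfv]
                split_ifs <;> omega
            · rw [hf0, hfl]
              exact hC.last
            · intro c hc
              have := lift f hc
              rw [hf0, hfl] at this
              exact hC.spec c this
        posinj := fun u v h => Fin.ext h
        pos0 := rfl
        pos1 := fun v hv => hsucc v ((hne0 v).1 hv)
        posle := by
          intro v
          rw [hsymm]
          exact Nat.lt_succ_iff.1 v.2
        s1 := by
          intro s u v hs huv hne
          rw [hsymm] at hne
          exact hint u v s huv hne hs }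
    exact hcore.false

/-- without dominating vertex there is a chain -/
theorem exists_chain {V : Type*} [Finite V] [Nonempty V] (E : Fin 3 → V → V → Prop)
    (htot : ∀ u v, u ≠ v → (∃ k, E k u v) ∨ ∃ k, E k v u)
    (hcon : ¬ ∃ v, ∀ w, w ≠ v → ∃ c, TransGen (E c) v w) :
    ∃ (m : ℕ) (f : Fin (m + 1) → V) (z : Fin 3), Function.Injective f ∧ Chain m (fun c a b => E c (f a) (f b)) z := by
  push Not at hcon
  choose g hg1 hg2 using hcon
  -- a periodic point
  obtain ⟨v0⟩ := (inferInstance : Nonempty V)
  obtain ⟨i, j, hij, hgij⟩ : ∃ i j : ℕ, i < j ∧ g^[i] v0 = g^[j] v0 := by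
    obtain ⟨i, j, hne, h⟩ := Finite.exists_ne_map_eq_of_infinite (fun n : ℕ => g^[n] v0)
    rcases lt_or_gt_of_ne hne with h1 | h1
    · exact ⟨i, j, h1, h⟩
    · exact ⟨j, i, h1, h.symm⟩
  obtain ⟨y, hy⟩ : ∃ y, y = g^[i] v0 := ⟨_, rfl⟩
  have hper : Function.IsPeriodicPt g (j - i) y := by
    rw [Function.IsPeriodicPt, Function.IsFixedPt, hy, ← Function.iterate_add_apply, hgij]
    congr 1
    omega
  have hpp : 0 < Function.minimalPeriod g y := hper.minimalPeriod_pos (by omega)
  obtain ⟨m, hm⟩ := Nat.exists_eq_succ_of_ne_zero hpp.ne'
  have hinj := Function.iterate_injOn_Iio_minimalPeriod (f := g) (x := y)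
  let f : Fin (m + 1) → V := fun i => g^[m - i] y
  have hf : Function.Injective f := by
    intro a b hab
    have h1 : m - (a : ℕ) = m - b := hinj (by simp [hm]) (by simp [hm]) hab
    apply Fin.ext
    omega
  have hlast : f (Fin.last m) = g (f 0) := by
    have h1 : g^[m + 1] y = y := by
      have := Function.iterate_minimalPeriod (f := g) (x := y)
      rwa [hm] at this
    simp only [f, Fin.val_last, Nat.sub_self, Function.iterate_zero, id_eq, Fin.val_zero, Nat.sub_zero]
    rw [← Function.iterate_succ_apply' g m y]
    exact h1.symm
  have hno : ∀ c, ¬ TransGen (E c) (f 0) (f (Fin.last m)) := by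
    intro c hc
    rw [hlast] at hc
    exact hg2 _ c hc
  have hne : f (Fin.last m) ≠ f 0 := by
    rw [hlast]
    exact hg1 _
  obtain ⟨z, hz⟩ : ∃ z, E z (f (Fin.last m)) (f 0) := by
    rcases htot _ _ hne with h | ⟨k, h⟩
    · exact h
    · exact absurd (TransGen.single h) (hno k)
  refine ⟨m, f, z, hf, ?_, hz, ?_⟩
  · intro i j hij c hc
    have h1 := lift f hc
    have h2 : f i = g (f j) := by
      simp only [f]
      rw [← Function.iterate_succ_apply' g]
      congr 1
      have := i.2
      have := j.2
      omega
    rw [h2] at h1
    exact hg2 _ c h1
  · intro c hc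
    exact absurd (lift f hc) (hno c)

/-- a 3-coloured tournament without rainbow directed triangle in which every vertex has at most two outgoing colours has
a vertex reaching every other vertex by a one-coloured path -/
theorem main {V : Type*} [Finite V] [Nonempty V] (E : Fin 3 → V → V → Prop) (hG : Good E) :
    ∃ v, ∀ w, w ≠ v → ∃ c, TransGen (E c) v w := by
  by_contra hcon
  obtain ⟨m, f, z, hf, hC⟩ := exists_chain E hG.tot hcon
  exact no_chain m _ z (hG.comap f hf) hC

/-- the reversed chain -/
theorem Chain.rev {m : ℕ} {E : Fin 3 → Fin (m + 1) → Fin (m + 1) → Prop} {z : Fin 3} (h : Chain m E z) :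
    Chain m (fun c a b => E c b.rev a.rev) z := by
  have key : ∀ c a b, TransGen (fun a b : Fin (m + 1) => E c b.rev a.rev) a b → TransGen (E c) b.rev a.rev := by
    intro c a b hab
    have h1 : TransGen (Function.swap (fun a b : Fin (m + 1) => E c b.rev a.rev)) b a := transGen_swap.2 hab
    exact TransGen.lift (p := E c) Fin.rev (fun x y hxy => hxy) _ _ h1
  refine ⟨?_, ?_, ?_⟩
  · intro i j hij c hc
    refine h.hole j.rev i.rev ?_ c (key c j i hc)
    rw [Fin.val_rev, Fin.val_rev]
    have := i.2
    have := j.2
    omega
  · simpa using h.last
  · intro c hc
    have := key c _ _ hc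
    simp only [Fin.rev_zero, Fin.rev_last] at this
    exact h.spec c this

/-- the same with at most two incoming colours -/
theorem main_in {V : Type*} [Finite V] [Nonempty V] (E : Fin 3 → V → V → Prop)
    (hG : Good (fun c u v => E c v u)) : ∃ v, ∀ w, w ≠ v → ∃ c, TransGen (E c) v w := by
  by_contra hcon
  obtain ⟨m, f, z, hf, hC⟩ := exists_chain E (fun u v huv => (hG.tot v u huv.symm)) hcon
  have hinj : Function.Injective (fun i : Fin (m + 1) => f i.rev) := fun a b hab => Fin.rev_injective (hf hab)
  exact no_chain m _ z (hG.comap (fun i => f i.rev) hinj) hC.rev

end Pool.Agent.Helper66.SSW
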