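import Mathlib

/-!
# Sands-Sauer-Woodrow with three colours leaving only vertices entered by one colour: the core argument

`Core E σ pos c o z`: the structure of a minimal counterexample. The vertices are cyclically ordered by `σ`, `o` is the
first one in the linear order `pos`, `v → σ v` is an arc of colour `c v`, `σ v` does not reach `v` (for `σ v = o` it may
reach `v` in colour `z` only), every other ordered pair is connected, every vertex with arcs of all three colours leaving
it has arcs of at most one colour entering it, and an arc `v → u` of colour `s` against the linear order has `u ⇒ v` in a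
colour different from `s`. `Core.false`: this is impossible.
-/

set_option autoImplicit false

namespace Pool.Agent.Helper66.SSW

open Relation

/-- along a path from a vertex with `P` to a vertex without `P` some step leaves `P` -/
theorem exists_switch {V : Type*} {R : V → V → Prop} {P : V → Prop} {s t : V} (h : TransGen R s t) (hs : P s)
    (ht : ¬ P t) : ∃ a b, ReflTransGen R s a ∧ R a b ∧ ReflTransGen R b t ∧ P a ∧ ¬ P b := by
  induction h with
  | single h => exact ⟨_, _, ReflTransGen.refl, h, ReflTransGen.refl, hs, ht⟩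
  | @tail u w h1 h2 ih =>
    by_cases hu : P u
    · exact ⟨u, w, h1.to_reflTransGen, h2, ReflTransGen.refl, hu, ht⟩
    · obtain ⟨a, b, h3, h4, h5, h6, h7⟩ := ih hu
      exact ⟨a, b, h3, h4, h5.tail h2, h6, h7⟩

theorem three {x y z : Fin 3} (hxy : x ≠ y) (hyz : y ≠ z) (hxz : x ≠ z) (c : Fin 3) : c = x ∨ c = y ∨ c = z := by
  revert x y z c
  decide

theorem exists_third (x y : Fin 3) : ∃ z, x ≠ z ∧ y ≠ z := by
  revert x y
  decide

variable {V : Type*}

/-- The structure of a minimal counterexample. -/
structure Core (E : Fin 3 → V → V → Prop) (σ : Equiv.Perm V) (pos : V → ℕ) (c : V → Fin 3) (o : V) (z : Fin 3) :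
    Prop where
  tot : ∀ u v, u ≠ v → (∃ k, E k u v) ∨ ∃ k, E k v u
  asym : ∀ k l u v, E k u v → ¬ E l v u
  uniq : ∀ k l u v, E k u v → E l u v → k = l
  norb : ∀ k l e u v w, k ≠ l → l ≠ e → k ≠ e → E k u v → E l v w → E e w u → False
  out2 : ∀ v, (∃ t, ∀ w, ¬ E t v w) ∨ ∀ k l u w, E k u v → E l w v → k = l
  side : ∀ v, E (c v) v (σ v)
  cz : c (σ.symm o) = z
  hole : ∀ v, σ v ≠ o → ∀ k, ¬ TransGen (E k) (σ v) v
  spec : ∀ k, TransGen (E k) o (σ.symm o) → k = z
  full : ∀ u v, u ≠ v → u ≠ σ v → ∃ k, TransGen (E k) u v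
  posinj : ∀ u v, pos u = pos v → u = v
  pos0 : pos o = 0
  pos1 : ∀ v, σ v ≠ o → pos (σ v) = pos v + 1
  posle : ∀ v, pos v ≤ pos (σ.symm o)
  s1 : ∀ s u v, E s v u → pos u < pos v → ¬ (u = o ∧ v = σ.symm o) → ∃ k, k ≠ s ∧ TransGen (E k) u v

/-- there are incoming arcs of two different colours -/
def In2 (E : Fin 3 → V → V → Prop) (v : V) : Prop := ∃ k l u w, k ≠ l ∧ E k u v ∧ E l w v

theorem in2_of {E : Fin 3 → V → V → Prop} {k l : Fin 3} {u v w : V} (hkl : k ≠ l) (h1 : TransGen (E k) u v)
    (h2 : TransGen (E l) w v) : In2 E v := by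
  obtain ⟨a, -, ha⟩ := TransGen.tail'_iff.1 h1
  obtain ⟨b, -, hb⟩ := TransGen.tail'_iff.1 h2
  exact ⟨k, l, a, b, hkl, ha, hb⟩

namespace Core

variable {E : Fin 3 → V → V → Prop} {σ : Equiv.Perm V} {pos : V → ℕ} {c : V → Fin 3} {o : V} {z : Fin 3}

section Basic

variable (H : Core E σ pos c o z)

include H

theorem irr (k : Fin 3) (u : V) : ¬ E k u u := fun h => H.asym k k u u h h

theorem side' (v : V) : E (c (σ.symm v)) (σ.symm v) v := by
  have := H.side (σ.symm v)
  rwa [Equiv.apply_symm_apply] at this

theorem ne_succ (v : V) : v ≠ σ v := fun h => H.irr (c v) v (by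
  have := H.side v
  rwa [← h] at this)

theorem ne_pred (v : V) : v ≠ σ.symm v := fun h => H.irr _ v (by
  have := H.side' v
  rwa [← h] at this)

theorem succ_ne_pred (v : V) : σ v ≠ σ.symm v := fun h => by
  have h1 := H.side v
  have h2 := H.side' v
  rw [← h] at h2
  exact H.asym _ _ _ _ h1 h2

/-- the rule at a side -/
theorem hole2 {v : V} (hv : σ v ≠ o) {k : Fin 3} {w : V} (h1 : TransGen (E k) (σ v) w) (h2 : TransGen (E k) w v) :
    False := H.hole v hv k (h1.trans h2)

theorem holep {v : V} (hv : v ≠ o) {k : Fin 3} (h1 : TransGen (E k) v (σ.symm v)) : False :=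
  H.hole (σ.symm v) (by rwa [Equiv.apply_symm_apply]) k (by rwa [Equiv.apply_symm_apply])

omit H in
theorem ssymm {v : V} (hv : σ v = o) : v = σ.symm o := by
  rw [← hv, Equiv.symm_apply_apply]

theorem outs {v : V} (hin : In2 E v) {b e : Fin 3} (hbe : b ≠ e) (hb : ∃ w, E b v w) (he : ∃ w, E e v w) {k : Fin 3}
    (hk : ∃ w, E k v w) : k = b ∨ k = e := by
  obtain ⟨t, ht⟩ : ∃ t, ∀ w, ¬ E t v w := by
    rcases H.out2 v with h | h
    · exact h
    · obtain ⟨k', l', u', w', h1, h2, h3⟩ := hin
      exact absurd (h k' l' u' w' h2 h3) h1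
  obtain ⟨w1, h1⟩ := hb
  obtain ⟨w2, h2⟩ := he
  obtain ⟨w3, h3⟩ := hk
  have hbt : b ≠ t := fun h => ht w1 (h ▸ h1)
  have het : e ≠ t := fun h => ht w2 (h ▸ h2)
  have hkt : k ≠ t := fun h => ht w3 (h ▸ h3)
  rcases three hbe het hbt k with h | h | h
  · exact Or.inl h
  · exact Or.inr h
  · exact absurd h hkt

omit H in
theorem out_of {k : Fin 3} {v w : V} (h : TransGen (E k) v w) : ∃ u, E k v u := by
  obtain ⟨u, hu, -⟩ := TransGen.head'_iff.1 h
  exact ⟨u, hu⟩

theorem outs' {v : V} (hin : In2 E v) {b e : Fin 3} (hbe : b ≠ e) (hb : ∃ w, E b v w) (he : ∃ w, E e v w)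
    {k : Fin 3} {w : V} (hk : TransGen (E k) v w) : k = b ∨ k = e := H.outs hin hbe hb he (out_of hk)

theorem in2_side {v w : V} {b : Fin 3} (h : TransGen (E b) w v) (hp : c (σ.symm v) ≠ b) : In2 E v :=
  in2_of hp.symm h (TransGen.single (H.side' v))

/-- nobody but `o` reaches a vertex in both of its outgoing colours -/
theorem F5 {u v : V} {b e : Fin 3} (hbe : b ≠ e) (hu : u ≠ o) (huv : v ≠ u) (hb : ∃ w, E b v w) (he : ∃ w, E e v w)
    (h1 : TransGen (E b) u v) (h2 : TransGen (E e) u v) : False := by
  by_cases hv : v = σ.symm u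
  · subst hv
    exact H.holep hu h1
  · obtain ⟨k, hk⟩ := H.full v (σ.symm u) hv (by rwa [Equiv.apply_symm_apply])
    rcases H.outs' (in2_of hbe h1 h2) hbe hb he hk with h | h
    · subst h
      exact H.holep hu (h1.trans hk)
    · subst h
      exact H.holep hu (h2.trans hk)

/-- the wall lemma: at a vertex `w` with sides of two different colours there is a path of the third colour from `σ w`
to the predecessor, and a vertex `r` of that path as below -/
theorem A2 {w : V} {f e g : Fin 3} (hf : c (σ.symm w) = f) (he : c w = e) (hfe : f ≠ e) (hfg : f ≠ g) (heg : e ≠ g) :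
    ∃ r, r ≠ w ∧ r ≠ σ w ∧ r ≠ σ.symm w ∧ (E f w r ∨ E e r w) ∧ TransGen (E g) (σ w) r ∧
      TransGen (E g) r (σ.symm w) ∧ ¬ TransGen (E g) w r ∧ ¬ TransGen (E g) r w := by
  have hs := H.side w
  have hp := H.side' w
  rw [he] at hs
  rw [hf] at hp
  have hfo : w = o → f = z := by
    intro h
    rw [← hf, h]
    exact H.cz
  have heo : σ w = o → e = z := by
    intro h
    rw [← he, ssymm h]
    exact H.cz
  -- colours of the holes
  have hA : ∀ k, k ≠ f → ¬ TransGen (E k) w (σ.symm w) := by
    intro k hk h
    by_cases hw : w = o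
    · subst hw
      exact hk ((H.spec k h).trans (hfo rfl).symm)
    · exact H.holep hw h
  have hB : ∀ k, k ≠ e → ¬ TransGen (E k) (σ w) w := by
    intro k hk h
    by_cases hw : σ w = o
    · have h2 := ssymm hw
      rw [hw] at h
      rw [h2] at h
      exact hk ((H.spec k h).trans (heo hw).symm)
    · exact H.hole w hw k h
  obtain ⟨k, hk⟩ := H.full (σ w) (σ.symm w) (H.succ_ne_pred w) (by
    rw [Equiv.apply_symm_apply]
    exact (H.ne_succ w).symm)
  have hkf : k ≠ f := by
    intro h
    rw [h] at hk
    exact hB f hfe (hk.tail hp)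
  have hke : k ≠ e := by
    intro h
    rw [h] at hk
    exact hA e hfe.symm (TransGen.head hs hk)
  have hkg : k = g := by
    rcases three hfe heg hfg k with h | h | h
    · exact absurd h hkf
    · exact absurd h hke
    · exact h
  subst hkg
  obtain ⟨a, b, h3, h4, h5, ⟨k1, h6⟩, h7⟩ := exists_switch (P := fun x => ∃ l, E l w x) hk ⟨e, hs⟩ (by
    rintro ⟨l, hl⟩
    exact H.asym _ _ _ _ hl hp)
  have hSb : TransGen (E k) (σ w) b := TransGen.tail' h3 h4
  have hSa : TransGen (E k) a (σ.symm w) := TransGen.head' h4 h5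
  have hbw : b ≠ w := fun h => hB k heg.symm (h ▸ hSb)
  have hin : ∃ l, E l b w := by
    rcases H.tot b w hbw with h | ⟨l, h⟩
    · exact h
    · exact absurd ⟨l, h⟩ h7
  obtain ⟨k2, h8⟩ := hin
  have hk1 : k1 ≠ k := by
    intro h
    rw [h] at h6
    exact hA k hfg.symm (TransGen.head h6 hSa)
  have hk2 : k2 ≠ k := by
    intro h
    rw [h] at h8
    exact hB k heg.symm (hSb.tail h8)
  have hk12 : k1 = k2 := by
    by_contra hne
    exact H.norb k1 k k2 w a b hk1 hk2.symm hne h6 h4 h8
  subst hk12
  have hnr1 : ∀ r, TransGen (E k) r (σ.symm w) → ¬ TransGen (E k) w r := fun r h9 h10 =>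
    hA k hfg.symm (h10.trans h9)
  have hnr2 : ∀ r, TransGen (E k) (σ w) r → ¬ TransGen (E k) r w := fun r h9 h10 =>
    hB k heg.symm (h9.trans h10)
  rcases three hfe heg hfg k1 with h | h | h
  · -- colour f : r = a
    subst h
    have haw : a ≠ w := fun h => H.irr k1 w (by rwa [h] at h6)
    have has : a ≠ σ w := by
      intro h
      rw [h] at h6
      exact hfe (H.uniq _ _ _ _ h6 hs)
    have hap : a ≠ σ.symm w := by
      intro h
      rw [h] at h6
      exact H.asym _ _ _ _ h6 hp
    have hSa2 : TransGen (E k) (σ w) a := by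
      rcases reflTransGen_iff_eq_or_transGen.1 h3 with h | h
      · exact absurd h has
      · exact h
    exact ⟨a, haw, has, hap, Or.inl h6, hSa2, hSa, hnr1 a hSa, hnr2 a hSa2⟩
  · subst h
    have hbs : b ≠ σ w := by
      intro h
      rw [h] at h8
      exact H.asym _ _ _ _ h8 hs
    have hbp : b ≠ σ.symm w := by
      intro h
      rw [h] at h8
      exact hfe (H.uniq _ _ _ _ hp h8)
    have hSb2 : TransGen (E k) b (σ.symm w) := by
      rcases reflTransGen_iff_eq_or_transGen.1 h5 with h | h
      · exact absurd h.symm hbp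
      · exact h
    exact ⟨b, hbw, hbs, hbp, Or.inr h8, hSb, hSb2, hnr1 b hSb2, hnr2 b hSb⟩
  · exact absurd h hk1

end Basic

/-! ### components -/

/-- two different vertices reach one another in colour `b` -/
def Tw (E : Fin 3 → V → V → Prop) (b : Fin 3) (u v : V) : Prop :=
  u ≠ v ∧ TransGen (E b) u v ∧ TransGen (E b) v u

theorem Tw.symm {b : Fin 3} {u v : V} (h : Tw E b u v) : Tw E b v u := ⟨h.1.symm, h.2.2, h.2.1⟩

section Comp

variable (H : Core E σ pos c o z) {b : Fin 3} (hbz : b ≠ z)

include H hbz

theorem tw_pred {u v : V} (h : Tw E b u v) : ¬ TransGen (E b) u (σ.symm v) := by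
  intro h1
  by_cases hv : v = o
  · subst hv
    exact hbz (H.spec b (h.2.2.trans h1))
  · exact H.holep hv (h.2.2.trans h1)

theorem tw_ne {u v : V} (h : Tw E b u v) : u ≠ σ.symm v := by
  intro h1
  by_cases hv : v = o
  · subst hv
    rw [h1] at h
    exact hbz (H.spec b h.2.2)
  · rw [h1] at h
    exact H.holep hv h.2.2

theorem tw_other {u v : V} (h : Tw E b u v) : ∃ e, e ≠ b ∧ TransGen (E e) u (σ.symm v) := by
  obtain ⟨k, hk⟩ := H.full u (σ.symm v) (H.tw_ne hbz h) (by
    rw [Equiv.apply_symm_apply]
    exact h.1)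
  exact ⟨k, fun h2 => H.tw_pred hbz h (h2 ▸ hk), hk⟩

theorem tw_same1 {u v : V} (h : Tw E b u v) {e : Fin 3} (heb : e ≠ b) (heu : ∃ w, E e u w) (hev : ∃ w, E e v w) :
    ¬ TransGen (E e) u v := by
  intro h1
  by_cases hu : u = o
  · subst hu
    obtain ⟨e', he', h2⟩ := H.tw_other hbz h.symm
    have h3 : e' = e := by
      rcases H.outs' (in2_of heb.symm h.2.1 h1) heb.symm (out_of h.2.2) hev h2 with h4 | h4
      · exact absurd h4 he'
      · exact h4
    subst h3
    have h4 : e' = z := H.spec e' (h1.trans h2)
    have h5 : TransGen (E e') v u := by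
      refine h2.tail ?_
      have := H.side' u
      rwa [H.cz, ← h4] at this
    exact H.F5 heb.symm h.1.symm h.1 (out_of h.2.1) heu h.2.2 h5
  · exact H.F5 heb.symm hu h.1.symm (out_of h.2.2) hev h.2.1 h1

theorem tw_same2 {u v : V} (h : Tw E b u v) {e : Fin 3} (heb : e ≠ b) (heu : ∃ w, E e u w) (hev : ∃ w, E e v w)
    (hpv : c (σ.symm v) ≠ b) : c (σ.symm u) ≠ e := by
  intro h1
  obtain ⟨e', he', h2⟩ := H.tw_other hbz h.symm
  have h3 : e' = e := by
    rcases H.outs' (H.in2_side h.2.1 hpv) heb.symm (out_of h.2.2) hev h2 with h4 | h4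
    · exact absurd h4 he'
    · exact h4
  subst h3
  refine H.tw_same1 hbz h.symm heb hev heu (h2.tail ?_)
  have := H.side' u
  rwa [h1] at this

/-- two vertices of one component with the same outgoing colours: the side of the first one has colour `b`, and there is a
further vertex before it -/
theorem tw_same3 {u v : V} (h : Tw E b u v) {e : Fin 3} (heb : e ≠ b) (heu : ∃ w, E e u w) (hev : ∃ w, E e v w)
    (hp : c (σ.symm u) ≠ b) (hpv : c (σ.symm v) ≠ b) :
    c u = b ∧ ∃ r, Tw E b u r ∧ (∃ w, E e r w) ∧ pos r < pos u := by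
  have hpe := H.tw_same2 hbz h heb heu hev hpv
  have hiu : In2 E u := H.in2_side h.2.2 hp
  have hiv : In2 E v := H.in2_side h.2.1 hpv
  obtain ⟨f, hf⟩ : ∃ f, c (σ.symm u) = f := ⟨_, rfl⟩
  rw [hf] at hp hpe
  have hbu : ∃ w, E b u w := out_of h.2.1
  have hbv : ∃ w, E b v w := out_of h.2.2
  have hfu : ∀ r, ¬ E f u r := by
    intro r hr
    rcases H.outs hiu heb.symm hbu heu ⟨r, hr⟩ with h1 | h1
    · exact hp h1
    · exact hpe h1
  rcases H.outs hiu heb.symm hbu heu ⟨_, H.side u⟩ with hcu | hcu
  · refine ⟨hcu, ?_⟩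
    obtain ⟨r, hr1, hr2, hr3, hr4, hr5, hr6, hr7, hr8⟩ := H.A2 hf hcu hp hpe heb.symm
    have hru : E b r u := by
      rcases hr4 with h1 | h1
      · exact absurd h1 (hfu r)
      · exact h1
    obtain ⟨k, hk⟩ := H.full u r hr1.symm (by
      intro h1
      exact hr3 (by rw [h1, Equiv.symm_apply_apply]))
    have hkb : k = b := by
      rcases H.outs' hiu heb.symm hbu heu hk with h1 | h1
      · exact h1
      · exact absurd (h1 ▸ hk) hr7
    subst hkb
    refine ⟨r, ⟨hr1.symm, hk, TransGen.single hru⟩, out_of hr6, ?_⟩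
    by_contra hlt
    have hlt2 : pos u < pos r := by
      rcases Nat.lt_or_ge (pos u) (pos r) with h1 | h1
      · exact h1
      · exact absurd (H.posinj _ _ (le_antisymm h1 (not_lt.1 hlt))) hr1
    obtain ⟨l, hl1, hl2⟩ := H.s1 k u r hru hlt2 (by
      rintro ⟨h1, h2⟩
      subst h1
      exact hr3 h2)
    rcases H.outs' hiu heb.symm hbu heu hl2 with h1 | h1
    · exact hl1 h1
    · exact hr7 (h1 ▸ hl2)
  · exfalso
    obtain ⟨r, hr1, hr2, hr3, hr4, hr5, hr6, hr7, hr8⟩ := H.A2 hf hcu hpe hp heb
    have hru : E e r u := by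
      rcases hr4 with h1 | h1
      · exact absurd h1 (hfu r)
      · exact h1
    obtain ⟨k, hk⟩ := H.full u r hr1.symm (by
      intro h1
      exact hr3 (by rw [h1, Equiv.symm_apply_apply]))
    have hke : k = e := by
      rcases H.outs' hiu heb.symm hbu heu hk with h1 | h1
      · exact absurd (h1 ▸ hk) hr7
      · exact h1
    subst hke
    have hvr : v ≠ r := fun h1 => hr8 (h1 ▸ h.2.2)
    have hn1 := H.tw_same1 hbz h heb heu hev
    have hn2 := H.tw_same1 hbz h.symm heb hev heu
    by_cases hvs : v = σ r
    · obtain ⟨l, hl⟩ := H.full r v hvr.symm (by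
        intro h1
        have h2 := H.side r
        have h3 := H.side v
        rw [← hvs] at h2
        rw [← h1] at h3
        exact H.asym _ _ _ _ h2 h3)
      rcases H.outs' (in2_of heb.symm hr5 hk) heb.symm (out_of hr6) ⟨u, hru⟩ hl with h1 | h1
      · subst h1
        exact hr8 (hl.trans h.2.2)
      · subst h1
        exact hn1 (hk.trans hl)
    · obtain ⟨l, hl⟩ := H.full v r hvr hvs
      rcases H.outs' hiv heb.symm hbv hev hl with h1 | h1
      · subst h1
        exact hr7 (h.2.1.trans hl)
      · subst h1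
        exact hn2 (hl.tail hru)

/-- a component with at least two vertices contains two vertices with the same outgoing colours -/
theorem tw_exists {u v : V} (h : Tw E b u v) :
    ∃ u' v' e, Tw E b u' v' ∧ e ≠ b ∧ (∃ w, E e u' w) ∧ (∃ w, E e v' w) ∧ (u' = u ∨ Tw E b u u') := by
  obtain ⟨e1, he1, h1⟩ := H.tw_other hbz h
  obtain ⟨e2, he2, h2⟩ := H.tw_other hbz h.symm
  by_cases he : e1 = e2
  · subst he
    exact ⟨u, v, e1, h, he1, out_of h1, out_of h2, Or.inl rfl⟩
  · have key : ∀ w, w ≠ u → w ≠ v → TransGen (E b) u w → TransGen (E b) w v →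
        ∃ u' v' e, Tw E b u' v' ∧ e ≠ b ∧ (∃ w, E e u' w) ∧ (∃ w, E e v' w) ∧ (u' = u ∨ Tw E b u u') := by
      intro w hwu hwv h3 h4
      have h5 : Tw E b u w := ⟨hwu.symm, h3, h4.trans h.2.2⟩
      have h6 : Tw E b v w := ⟨hwv.symm, h.2.2.trans h3, h4⟩
      obtain ⟨e3, he3, h7⟩ := H.tw_other hbz h5.symm
      rcases three he1.symm he he2.symm e3 with h8 | h8 | h8
      · exact absurd h8 he3
      · subst h8
        exact ⟨u, w, e3, h5, he1, out_of h1, out_of h7, Or.inl rfl⟩
      · subst h8
        exact ⟨w, v, e3, h6.symm, he2, out_of h7, out_of h2, Or.inr h5⟩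
    obtain ⟨w1, hw1, hw1'⟩ := TransGen.head'_iff.1 h.2.1
    rcases reflTransGen_iff_eq_or_transGen.1 hw1' with h3 | h3
    · obtain ⟨w2, hw2, hw2'⟩ := TransGen.head'_iff.1 h.2.2
      rcases reflTransGen_iff_eq_or_transGen.1 hw2' with h4 | h4
      · exfalso
        rw [← h3] at hw1
        rw [← h4] at hw2
        exact H.asym _ _ _ _ hw1 hw2
      · have hw2v : w2 ≠ v := fun h5 => H.irr b v (by rwa [h5] at hw2)
        have hw2u : w2 ≠ u := by
          intro h5
          rw [h5] at hw2
          rw [← h3] at hw1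
          exact H.asym _ _ _ _ hw1 hw2
        exact key w2 hw2u hw2v (h.2.1.tail hw2) (h4.trans h.2.1)
    · have hw1u : w1 ≠ u := fun h5 => H.irr b u (by rwa [h5] at hw1)
      by_cases hw1v : w1 = v
      · obtain ⟨w2, hw2, hw2'⟩ := TransGen.head'_iff.1 h.2.2
        have hw2v : w2 ≠ v := fun h5 => H.irr b v (by rwa [h5] at hw2)
        have hw2u : w2 ≠ u := by
          intro h5
          rw [h5] at hw2
          rw [hw1v] at hw1
          exact H.asym _ _ _ _ hw1 hw2
        rcases reflTransGen_iff_eq_or_transGen.1 hw2' with h4 | h4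
        · exact absurd h4.symm hw2u
        · exact key w2 hw2u hw2v (h.2.1.tail hw2) (h4.trans h.2.1)
      · exact key w1 hw1u hw1v (TransGen.single hw1) h3

end Comp

/-! ### a maximal class of runs -/

section Top

variable (H : Core E σ pos c o z) {b : Fin 3} (hbz : b ≠ z)

include H hbz

theorem run_start (n : ℕ) : ∀ v, pos v = n → c v = b →
    ∃ β, c β = b ∧ c (σ.symm β) ≠ b ∧ (β = v ∨ TransGen (E b) β v) := by
  induction n with
  | zero =>
    intro v hv hc
    have : v = o := H.posinj _ _ (by rw [hv, H.pos0])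
    refine ⟨v, hc, ?_, Or.inl rfl⟩
    rw [this, H.cz]
    exact hbz.symm
  | succ n ih =>
    intro v hv hc
    by_cases hp : c (σ.symm v) = b
    · have hvo : v ≠ o := by
        intro h
        rw [h, H.cz] at hp
        exact hbz hp.symm
      have h1 : pos v = pos (σ.symm v) + 1 := by
        have := H.pos1 (σ.symm v) (by rwa [Equiv.apply_symm_apply])
        rwa [Equiv.apply_symm_apply] at this
      obtain ⟨β, h2, h3, h4⟩ := ih (σ.symm v) (by omega) hp
      have h5 : E b (σ.symm v) v := by
        have := H.side' v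
        rwa [hp] at this
      refine ⟨β, h2, h3, Or.inr ?_⟩
      rcases h4 with h4 | h4
      · rw [h4]
        exact TransGen.single h5
      · exact h4.tail h5
    · exact ⟨v, hc, hp, Or.inl rfl⟩

theorem exists_top [Finite V] (hb : ∃ v, c v = b) : ∃ α, c α = b ∧ c (σ.symm α) ≠ b ∧
    ∀ β, c β = b → c (σ.symm β) ≠ b → TransGen (E b) β α → TransGen (E b) α β := by
  obtain ⟨v, hv⟩ := hb
  obtain ⟨β, hβ1, hβ2, -⟩ := H.run_start hbz (pos v) v rfl hv
  let R : V → V → Prop := fun u w => TransGen (E b) u w ∧ ¬ TransGen (E b) w u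
  have : IsTrans V R := ⟨fun u v w h1 h2 => ⟨h1.1.trans h2.1, fun h3 => h1.2 (h2.1.trans h3)⟩⟩
  have : Std.Irrefl R := ⟨fun u h => h.2 h.1⟩
  have hwf : WellFounded R := Finite.wellFounded_of_trans_of_irrefl R
  let A : Set V := {v | c v = b ∧ c (σ.symm v) ≠ b}
  have hA : A.Nonempty := ⟨β, hβ1, hβ2⟩
  have hm := hwf.min_mem A hA
  refine ⟨hwf.min A hA, hm.1, hm.2, fun β h1 h2 h3 => ?_⟩
  by_contra h4
  exact hwf.not_lt_min A (show β ∈ A from ⟨h1, h2⟩) ⟨h3, h4⟩

variable {α : V} (ha1 : c α = b) (ha2 : c (σ.symm α) ≠ b)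
  (htop : ∀ β, c β = b → c (σ.symm β) ≠ b → TransGen (E b) β α → TransGen (E b) α β)

include htop

theorem top1 {v : V} (hv : v ≠ α) (h : TransGen (E b) v α) (hc : c v = b) : TransGen (E b) α v := by
  obtain ⟨β, h1, h2, h3⟩ := H.run_start hbz (pos v) v rfl hc
  rcases h3 with h3 | h3
  · subst h3
    exact htop β h1 h2 h
  · exact (htop β h1 h2 (h3.trans h)).trans h3

theorem top2 {v : V} (h : TransGen (E b) v α) : c (σ.symm v) ≠ b := by
  intro hc
  have hvo : v ≠ o := by
    intro h1
    rw [h1, H.cz] at hc
    exact hbz hc.symm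
  have h5 : E b (σ.symm v) v := by
    have := H.side' v
    rwa [hc] at this
  by_cases hu : σ.symm v = α
  · rw [← hu] at h
    exact H.holep hvo h
  · have h6 := H.top1 hbz htop hu (TransGen.head h5 h) hc
    exact H.holep hvo (h.trans h6)

include ha2

theorem top3 (n : ℕ) : ∀ u, pos u = n → (u = α ∨ Tw E b u α) → ∀ v e, Tw E b u v → e ≠ b → (∃ w, E e u w) →
    (∃ w, E e v w) → False := by
  induction n using Nat.strong_induction_on with
  | _ n ih =>
    intro u hn hu v e huv heb heu hev
    have hp : c (σ.symm u) ≠ b := by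
      rcases hu with hu | hu
      · rw [hu]
        exact ha2
      · exact H.top2 hbz htop hu.2.1
    have hpv : c (σ.symm v) ≠ b := by
      by_cases hva : v = α
      · rw [hva]
        exact ha2
      · rcases hu with hu | hu
        · rw [hu] at huv
          exact H.top2 hbz htop huv.2.2
        · exact H.top2 hbz htop (huv.2.2.trans hu.2.1)
    obtain ⟨-, r, hr1, hr2, hr3⟩ := H.tw_same3 hbz huv heb heu hev hp hpv
    refine ih (pos r) (by omega) r rfl ?_ u e hr1.symm heb hr2 heu
    by_cases hra : r = α
    · exact Or.inl hra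
    · rcases hu with hu | hu
      · rw [hu] at hr1
        exact Or.inr hr1.symm
      · exact Or.inr ⟨hra, hr1.2.2.trans hu.2.1, hu.2.2.trans hr1.2.1⟩

/-- the top class is a single vertex -/
theorem top4 {v : V} (hv : v ≠ α) (h : TransGen (E b) v α) : ¬ TransGen (E b) α v := by
  intro h1
  obtain ⟨u', v', e, h2, h3, h4, h5, h6⟩ := H.tw_exists hbz (⟨hv.symm, h1, h⟩ : Tw E b α v)
  refine H.top3 hbz ha2 htop (pos u') u' rfl ?_ v' e h2 h3 h4 h5
  rcases h6 with h6 | h6
  · exact Or.inl h6
  · exact Or.inr h6.symm

theorem top5 {v : V} (hv : v ≠ α) (h : TransGen (E b) v α) : c v ≠ b := fun hc =>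
  H.top4 hbz ha2 htop hv h (H.top1 hbz htop hv h hc)

/-- the classes above the top class are single vertices -/
theorem top6 {u v : V} (hu : u ≠ α) (h : TransGen (E b) u α) (huv : Tw E b u v) : False := by
  obtain ⟨u', v', e, h2, h3, h4, h5, h6⟩ := H.tw_exists hbz huv
  have h7 : TransGen (E b) u' α := by
    rcases h6 with h6 | h6
    · rw [h6]
      exact h
    · exact h6.2.2.trans h
  have h8 : u' ≠ α := by
    intro h9
    rcases h6 with h6 | h6
    · exact hu (h6 ▸ h9)
    · rw [h9] at h6
      exact H.top4 hbz ha2 htop hu h h6.2.2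
  have h10 : c (σ.symm v') ≠ b := H.top2 hbz htop (h2.2.2.trans h7)
  obtain ⟨h9, -⟩ := H.tw_same3 hbz h2 h3 h4 h5 (H.top2 hbz htop h7) h10
  exact H.top5 hbz ha2 htop h8 h7 h9

end Top

/-! ### the distance to a vertex along the cyclic order -/

/-- the number of steps from `w` to `α` -/
def dist (σ : Equiv.Perm V) (pos : V → ℕ) (o α w : V) : ℕ :=
  if pos w ≤ pos α then pos α - pos w else pos α + (pos (σ.symm o) + 1) - pos w

section Walk

variable (H : Core E σ pos c o z) {b : Fin 3} (hbz : b ≠ z)

include H

theorem dist_succ {α w : V} (hw : w ≠ α) : dist σ pos o α (σ w) + 1 = dist σ pos o α w := by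
  have h1 : pos w ≠ pos α := fun h => hw (H.posinj _ _ h)
  have h2 := H.posle α
  have h3 := H.posle w
  by_cases hs : σ w = o
  · have h4 := ssymm hs
    have h5 : pos (σ w) = 0 := by rw [hs, H.pos0]
    have h6 : pos w = pos (σ.symm o) := by rw [← h4]
    unfold dist
    rw [h5, if_pos (Nat.zero_le _)]
    split_ifs <;> omega
  · have h4 := H.pos1 w hs
    unfold dist
    rw [h4]
    split_ifs <;> omega

include hbz

variable {α : V} (ha1 : c α = b) (ha2 : c (σ.symm α) ≠ b)
  (htop : ∀ β, c β = b → c (σ.symm β) ≠ b → TransGen (E b) β α → TransGen (E b) α β)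
  {x y : Fin 3} (hx : c (σ.symm α) = x) (hxb : x ≠ b) (hxy : x ≠ y) (hby : b ≠ y)

include ha1 ha2 htop hx hxb hxy hby

omit htop ha2 hbz in
/-- two colours enter `α` -/
theorem in2_top : In2 E α := by
  by_contra hno
  have hxa : E x (σ.symm α) α := by
    have := H.side' α
    rwa [hx] at this
  have hall : ∀ k w, TransGen (E k) w α → k = x := by
    intro k w h
    by_contra hk
    exact hno (in2_of hk h (TransGen.single hxa))
  obtain ⟨r, hr1, hr2, hr3, hr4, hr5, hr6, hr7, hr8⟩ := H.A2 hx ha1 hxb hxy hby
  have h1 : E x α r := by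
    rcases hr4 with h | h
    · exact h
    · exact absurd (hall b r (TransGen.single h)).symm hxb
  have hra : ∀ w, w ≠ α → w ≠ σ α → TransGen (E x) w α := by
    intro w hw1 hw2
    obtain ⟨k, hk⟩ := H.full w α hw1 hw2
    rwa [hall k w hk] at hk
  have hsr : σ r ≠ α := by
    intro h
    exact hr3 (by rw [← h, Equiv.symm_apply_apply])
  have h2 := hra (σ r) hsr (fun h => hr1 (σ.injective h))
  by_cases hs : σ r = o
  · have h3 := ssymm hs
    have hxz : x = z := by
      refine H.spec x ?_
      rw [← hs, Equiv.symm_apply_apply]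
      exact h2.tail h1
    have h4 : E x r o := by
      have := H.side r
      rwa [h3, H.cz, ← hxz, ← h3, hs] at this
    have h5 : TransGen (E x) α o := TransGen.head h1 (TransGen.single h4)
    have hoa : o ≠ α := fun h => hsr (hs.trans h)
    by_cases h6 : σ o = α
    · refine H.hole o (H.ne_succ o).symm x ?_
      rwa [h6]
    · exact H.hole2 (H.ne_succ o).symm (hra (σ o) h6 (fun h => hoa (σ.injective h))) h5
  · exact H.hole2 hs h2 (TransGen.single h1)

/-- the third colour does not leave `α` -/
theorem normal : ¬ ∃ w, E y α w := by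
  intro hy
  obtain ⟨r, hr1, hr2, hr3, hr4, hr5, hr6, hr7, hr8⟩ := H.A2 hx ha1 hxb hxy hby
  have hb : ∃ w, E b α w := by
    have := H.side α
    rw [ha1] at this
    exact ⟨_, this⟩
  have h1 : E b r α := by
    rcases hr4 with h | h
    · rcases H.outs (H.in2_top ha1 hx hxb hxy hby) hby hb hy ⟨r, h⟩ with h2 | h2
      · exact absurd h2 hxb
      · exact absurd h2 hxy
    · exact h
  obtain ⟨k, hk⟩ := H.full α r hr1.symm (by
    intro h2
    exact hr3 (by rw [h2, Equiv.symm_apply_apply]))
  rcases H.outs' (H.in2_top ha1 hx hxb hxy hby) hby hb hy hk with h2 | h2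
  · rw [h2] at hk
    exact H.top4 hbz ha2 htop hr1 (TransGen.single h1) hk
  · rw [h2] at hk
    exact hr7 hk

theorem outA {k : Fin 3} {w : V} (h : TransGen (E k) α w) : k = x ∨ k = b := by
  rcases three hxb hby hxy k with h1 | h1 | h1
  · exact Or.inl h1
  · exact Or.inr h1
  · rw [h1] at h
    exact absurd (out_of h) (H.normal hbz ha1 ha2 htop hx hxb hxy hby)

/-- a vertex which reaches `α` in colour `b` is reached from `α` in colour `x` -/
theorem zallA {w : V} (hw : w ≠ α) (h : TransGen (E b) w α) (hp : w ≠ σ.symm α) : TransGen (E x) α w := by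
  obtain ⟨k, hk⟩ := H.full α w hw.symm (by
    intro h2
    exact hp (by rw [h2, Equiv.symm_apply_apply]))
  rcases H.outA hbz ha1 ha2 htop hx hxb hxy hby hk with h2 | h2
  · rwa [h2] at hk
  · rw [h2] at hk
    exact absurd hk (H.top4 hbz ha2 htop hw h)

/-- the walk for the candidate of the first kind -/
theorem walk3 {r : V} (hri : In2 E r) (hr1 : TransGen (E x) α r) (hrx : ∃ w, E x r w) (hry : ∃ w, E y r w)
    (hr2 : ¬ TransGen (E y) r α) (n : ℕ) :
    ∀ w, dist σ pos o α w = n → n ≤ dist σ pos o α r → w ≠ α → w ≠ σ.symm α → TransGen (E x) α w → False := by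
  induction n using Nat.strong_induction_on with
  | _ n ih =>
    intro w hn hnr hwa hwp hAw
    have hd := H.dist_succ hwa
    have hsa : σ w ≠ α := by
      intro h
      exact hwp (by rw [← h, Equiv.symm_apply_apply])
    have hd2 := H.dist_succ hsa
    -- it is enough to reach `σ w` in colour `x` if it is not the predecessor of `α`
    have hfin : σ w ≠ σ.symm α → TransGen (E x) α (σ w) → False := fun h1 h2 =>
      ih (dist σ pos o α (σ w)) (by omega) (σ w) rfl (by omega) hsa h1 h2
    -- the case where `σ w` does not reach `α` in colour `x`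
    have hcase : ¬ TransGen (E x) (σ w) α → False := by
      intro hnx
      have hne : σ w ≠ σ.symm α := by
        intro h
        apply hnx
        rw [h]
        have := H.side' α
        rw [hx] at this
        exact TransGen.single this
      refine hfin hne ?_
      obtain ⟨k, hk⟩ := H.full (σ w) α hsa (fun h => hwa (σ.injective h))
      rcases three hxb hby hxy k with h | h | h
      · rw [h] at hk
        exact absurd hk hnx
      · rw [h] at hk
        exact H.zallA hbz ha1 ha2 htop hx hxb hxy hby hsa hk hne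
      · rw [h] at hk
        obtain ⟨l, hl⟩ := H.full r (σ w) (by
          intro h1
          rw [← h1] at hd
          omega) (by
          intro h1
          rw [h1] at hnr
          omega)
        rcases H.outs' hri hxy hrx hry hl with h2 | h2
        · rw [h2] at hl
          exact hr1.trans hl
        · rw [h2] at hl
          exact absurd (hl.trans hk) hr2
    by_cases hs : σ w = o
    · have h1 := ssymm hs
      by_cases hxz : x = z
      · have h2 : E x w (σ w) := by
          have := H.side w
          rwa [h1, H.cz, ← hxz, ← h1] at this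
        by_cases hne : σ w = σ.symm α
        · have h3 : TransGen (E x) α (σ.symm α) := by
            rw [← hne]
            exact hAw.tail h2
          by_cases hao : α = o
          · rw [hao] at hne
            rw [hs] at hne
            exact H.ne_pred o hne
          · exact H.holep hao h3
        · exact hfin hne (hAw.tail h2)
      · refine hcase (fun h2 => hxz (H.spec x ?_))
        rw [hs] at h2
        rw [h1] at hAw
        exact h2.trans hAw
    · exact hcase (fun h2 => H.hole2 hs h2 hAw)

omit ha1 in
/-- the walk for the candidate of the second kind -/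
theorem walk1 {r : V} (hri : In2 E r) (hra : r ≠ α) (hrb : TransGen (E b) r α) (hcr : c r = y) (hry : ¬ TransGen (E y) r α)
    (hlast : ∀ w, w ≠ α → TransGen (E b) w α → c w = y → ¬ TransGen (E y) w α →
      dist σ pos o α r ≤ dist σ pos o α w) (n : ℕ) :
    ∀ w, dist σ pos o α w = n → n < dist σ pos o α r → w ≠ α → TransGen (E b) w α → ¬ TransGen (E y) w α →
      ¬ TransGen (E x) w α → c w = x → (w = σ r ∨ (TransGen (E x) (σ r) w ∧ TransGen (E b) w r)) → False := by
  induction n using Nat.strong_induction_on with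
  | _ n ih =>
    intro w hn hnr hwa hbw hyw hxw hcw hγ
    have hd := H.dist_succ hwa
    have hdr := H.dist_succ hra
    have hwp : w ≠ σ.symm α := by
      intro h
      apply hxw
      rw [h]
      have := H.side' α
      rw [hx] at this
      exact TransGen.single this
    have hva : σ w ≠ α := by
      intro h
      exact hwp (by rw [← h, Equiv.symm_apply_apply])
    have hd2 := H.dist_succ hva
    have hsw : E x w (σ w) := by
      have := H.side w
      rwa [hcw] at this
    have hsr : E y r (σ r) := by
      have := H.side r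
      rwa [hcr] at this
    have hxv : ¬ TransGen (E x) (σ w) α := fun h => hxw (TransGen.head hsw h)
    have hγv : TransGen (E x) (σ r) (σ w) := by
      rcases hγ with h | h
      · rw [← h]
        exact TransGen.single hsw
      · exact h.1.tail hsw
    have hxvr : ¬ TransGen (E x) (σ w) r := by
      intro h
      by_cases hs : σ r = o
      · have h1 := ssymm hs
        have h2 : x = z := by
          refine H.spec x ?_
          rw [← hs, Equiv.symm_apply_apply]
          exact hγv.trans h
        have h3 : y = z := by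
          rw [← hcr, h1]
          exact H.cz
        exact hxy (h2.trans h3.symm)
      · exact H.hole2 hs hγv h
    have hvr : σ w ≠ r := by
      intro h
      rw [h] at hd
      omega
    have hvsr : σ w ≠ σ r := by
      intro h
      have h1 : w = r := σ.injective h
      rw [h1] at hn
      omega
    have hrsv : r ≠ σ (σ w) := by
      intro h
      rw [← h] at hd2
      omega
    obtain ⟨k, hk⟩ := H.full (σ w) α hva (fun h => hwa (σ.injective h))
    by_cases hyv : TransGen (E y) (σ w) α
    · have hrv : TransGen (E b) r (σ w) := by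
        obtain ⟨l, hl⟩ := H.full r (σ w) hvr.symm hrsv
        rcases H.outs' hri hby (out_of hrb) ⟨_, hsr⟩ hl with h | h
        · rwa [h] at hl
        · rw [h] at hl
          exact absurd (hl.trans hyv) hry
      by_cases hbv : TransGen (E b) (σ w) r
      · exact H.top6 hbz ha2 htop hra hrb ⟨hvr.symm, hrv, hbv⟩
      · have hyvr : TransGen (E y) (σ w) r := by
          obtain ⟨l, hl⟩ := H.full (σ w) r hvr hvsr
          rcases three hxb hby hxy l with h | h | h
          · rw [h] at hl
            exact absurd hl hxvr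
          · rw [h] at hl
            exact absurd hl hbv
          · rwa [h] at hl
        have hnrw : ¬ TransGen (E y) r w := by
          intro h
          by_cases hs : σ w = o
          · have h1 := ssymm hs
            have h2 : y = z := by
              refine H.spec y ?_
              rw [← hs, Equiv.symm_apply_apply]
              exact hyvr.trans h
            have h3 : x = z := by
              rw [← hcw, h1]
              exact H.cz
            exact hxy (h3.trans h2.symm)
          · exact H.hole2 hs hyvr h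
        rcases hγ with h | h
        · rw [h] at hnrw
          exact hnrw (TransGen.single hsr)
        · obtain ⟨l, hl⟩ := H.full r w (by
            intro h1
            rw [← h1] at hn
            omega) (fun h1 => hvr h1.symm)
          rcases H.outs' hri hby (out_of hrb) ⟨_, hsr⟩ hl with h1 | h1
          · rw [h1] at hl
            refine H.top6 hbz ha2 htop hra hrb ⟨?_, hl, h.2⟩
            intro h2
            rw [← h2] at hn
            omega
          · rw [h1] at hl
            exact hnrw hl
    · have hbv : TransGen (E b) (σ w) α := by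
        rcases three hxb hby hxy k with h | h | h
        · rw [h] at hk
          exact absurd hk hxv
        · rwa [h] at hk
        · rw [h] at hk
          exact absurd hk hyv
      have hcv : c (σ w) = x := by
        rcases three hxb hby hxy (c (σ w)) with h | h | h
        · exact h
        · exact absurd h (H.top5 hbz ha2 htop hva hbv)
        · have := hlast (σ w) hva hbv h hyv
          omega
      have hbvr : TransGen (E b) (σ w) r := by
        obtain ⟨l, hl⟩ := H.full (σ w) r hvr hvsr
        have hvi : In2 E (σ w) := by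
          obtain ⟨l', hl'⟩ := H.full r (σ w) hvr.symm hrsv
          refine in2_of ?_ hl' (TransGen.single hsw)
          rcases H.outs' hri hby (out_of hrb) ⟨_, hsr⟩ hl' with h | h
          · rw [h]
            exact hxb.symm
          · rw [h]
            exact hxy.symm
        rcases H.outs' hvi hxb ⟨_, hcv ▸ H.side (σ w)⟩ (out_of hbv) hl with h | h
        · rw [h] at hl
          exact absurd hl hxvr
        · rwa [h] at hl
      exact ih (dist σ pos o α (σ w)) (by omega) (σ w) rfl (by omega) hva hbv hyv hxv hcv (Or.inr ⟨hγv, hbvr⟩)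

end Walk

/-- not all sides have the colour `z` -/
theorem exists_side (H : Core E σ pos c o z) : ∃ v, c v ≠ z := by
  by_contra hcon
  push Not at hcon
  have hside : ∀ v, E z (σ.symm v) v := by
    intro v
    have := H.side' v
    rwa [hcon] at this
  have key : ∀ n, ∀ v, pos v = n + 1 → ReflTransGen (E z) (σ o) v := by
    intro n
    induction n with
    | zero =>
      intro v hv
      have hvo : v ≠ o := by
        intro h
        rw [h, H.pos0] at hv
        omega
      have h1 := H.pos1 (σ.symm v) (by rwa [Equiv.apply_symm_apply])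
      rw [Equiv.apply_symm_apply] at h1
      have h2 : σ.symm v = o := H.posinj _ _ (by rw [H.pos0]; omega)
      rw [← h2, Equiv.apply_symm_apply]
    | succ n ih =>
      intro v hv
      have hvo : v ≠ o := by
        intro h
        rw [h, H.pos0] at hv
        omega
      have h1 := H.pos1 (σ.symm v) (by rwa [Equiv.apply_symm_apply])
      rw [Equiv.apply_symm_apply] at h1
      exact (ih (σ.symm v) (by omega)).tail (hside v)
  have h1 : pos (σ.symm o) ≠ 0 := by
    intro h
    exact H.ne_pred o (H.posinj _ _ (by rw [H.pos0, h]))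
  obtain ⟨n, hn⟩ := Nat.exists_eq_succ_of_ne_zero h1
  exact H.hole o (H.ne_succ o).symm z (TransGen.tail' (key n _ hn) (hside o))

/-- there is no such structure -/
theorem false [Finite V] (H : Core E σ pos c o z) : False := by
  obtain ⟨v, hv⟩ := H.exists_side
  obtain ⟨b, hb⟩ : ∃ b, c v = b := ⟨_, rfl⟩
  have hbz : b ≠ z := fun h => hv (hb.trans h)
  obtain ⟨α, ha1, ha2, htop⟩ := H.exists_top hbz ⟨v, hb⟩
  obtain ⟨x, hx⟩ : ∃ x, c (σ.symm α) = x := ⟨_, rfl⟩
  have hxb : x ≠ b := fun h => ha2 (hx.trans h)
  obtain ⟨y, hxy, hby⟩ := exists_third x b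
  obtain ⟨r, hr1, hr2, hr3, hr4, hr5, hr6, hr7, hr8⟩ := H.A2 hx ha1 hxb hxy hby
  by_cases hrb : TransGen (E b) r α
  · -- the second kind
    have hcr : c r = y := by
      rcases H.outs (in2_of hxy (H.zallA hbz ha1 ha2 htop hx hxb hxy hby hr1 hrb hr3) hr5) hby (out_of hrb)
        (out_of hr6) ⟨_, H.side r⟩ with h | h
      · exact absurd h (H.top5 hbz ha2 htop hr1 hrb)
      · exact h
    let A : Set V := {w | w ≠ α ∧ TransGen (E b) w α ∧ c w = y ∧ ¬ TransGen (E y) w α}
    have hA : A.Nonempty := ⟨r, hr1, hrb, hcr, hr8⟩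
    obtain ⟨s, ⟨hs1, hs2, hs3, hs4⟩, hs5⟩ := WellFounded.has_min (measure (dist σ pos o α)).wf A hA
    have hlast : ∀ w, w ≠ α → TransGen (E b) w α → c w = y → ¬ TransGen (E y) w α →
        dist σ pos o α s ≤ dist σ pos o α w := fun w h1 h2 h3 h4 =>
      not_lt.1 (hs5 w (show w ∈ A from ⟨h1, h2, h3, h4⟩))
    have hd := H.dist_succ hs1
    have hsp : s ≠ σ.symm α := by
      intro h
      rw [h, hx] at hs3
      exact hxy hs3
    have hsa : σ s ≠ α := by
      intro h
      exact hsp (by rw [← h, Equiv.symm_apply_apply])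
    have hss : E y s (σ s) := by
      have := H.side s
      rwa [hs3] at this
    have hAs := H.zallA hbz ha1 ha2 htop hx hxb hxy hby hs1 hs2 hsp
    have hny : ¬ TransGen (E y) (σ s) α := fun h => hs4 (TransGen.head hss h)
    have hnx : ¬ TransGen (E x) (σ s) α := by
      intro h
      by_cases ho : σ s = o
      · have h1 := ssymm ho
        have h2 : x = z := by
          refine H.spec x ?_
          rw [← ho, Equiv.symm_apply_apply]
          exact h.trans hAs
        have h3 : y = z := by
          rw [← hs3, h1]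
          exact H.cz
        exact hxy (h2.trans h3.symm)
      · exact H.hole2 ho h hAs
    have hbs : TransGen (E b) (σ s) α := by
      obtain ⟨k, hk⟩ := H.full (σ s) α hsa (fun h => hs1 (σ.injective h))
      rcases three hxb hby hxy k with h | h | h
      · rw [h] at hk
        exact absurd hk hnx
      · rwa [h] at hk
      · rw [h] at hk
        exact absurd hk hny
    have hcs : c (σ s) = x := by
      rcases three hxb hby hxy (c (σ s)) with h | h | h
      · exact h
      · exact absurd h (H.top5 hbz ha2 htop hsa hbs)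
      · have := hlast (σ s) hsa hbs h hny
        omega
    have hd2 := H.dist_succ hsa
    have hsx : E x (σ s) (σ (σ s)) := by
      have := H.side (σ s)
      rwa [hcs] at this
    have hsi : In2 E s := by
      obtain ⟨k, hk⟩ := H.full (σ (σ s)) s (by
        intro h
        rw [h] at hd2
        omega) (fun h => H.ne_succ s (σ.injective h).symm)
      by_cases hkx : k = x
      · exfalso
        rw [hkx] at hk
        have h1 : TransGen (E x) (σ s) s := TransGen.head hsx hk
        by_cases ho : σ s = o
        · have h2 := ssymm ho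
          have h3 : x = z := by
            refine H.spec x ?_
            rw [← ho, Equiv.symm_apply_apply]
            exact h1
          have h4 : y = z := by
            rw [← hs3, h2]
            exact H.cz
          exact hxy (h3.trans h4.symm)
        · exact H.hole s ho x h1
      · exact in2_of hkx hk hAs
    exact H.walk1 hbz ha2 htop hx hxb hxy hby hsi hs1 hs2 hs3 hs4 hlast (dist σ pos o α (σ s)) (σ s) rfl
      (by omega) hsa hbs hny hnx hcs (Or.inl rfl)
  · -- the first kind
    have h1 : E x α r := by
      rcases hr4 with h | h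
      · exact h
      · exact absurd (TransGen.single h) hrb
    have h2 : TransGen (E x) r α := by
      obtain ⟨k, hk⟩ := H.full r α hr1 hr2
      rcases three hxb hby hxy k with h | h | h
      · rwa [h] at hk
      · rw [h] at hk
        exact absurd hk hrb
      · rw [h] at hk
        exact absurd hk hr8
    exact H.walk3 hbz ha1 ha2 htop hx hxb hxy hby (in2_of hxy (TransGen.single h1) hr5) (TransGen.single h1) (out_of h2) (out_of hr6) hr8
      (dist σ pos o α r) r rfl le_rfl hr1 hr3 (TransGen.single h1)

end Core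

end Pool.Agent.Helper66.SSW
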